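import Pool.Agent.Lib.FW.SpecC

/-! FW, Part C: the average of a product of Fejér kernels over a coset. -/

namespace Pool.Agent.FW.C

open Finset

private theorem ee_add (x y : ℝ) : ee (x + y) = ee x * ee y := by
  unfold ee
  rw [← Complex.exp_add]
  congr 1
  push_cast
  ring

private theorem ee_zero : ee 0 = 1 := by simp [ee]

private theorem ee_int (m : ℤ) : ee (m : ℝ) = 1 := by
  unfold ee
  rw [Complex.exp_eq_one_iff]
  exact ⟨m, by push_cast; ring⟩

private theorem ee_conj (x : ℝ) : (starRingEnd ℂ) (ee x) = ee (-x) := by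
  unfold ee
  rw [← Complex.exp_conj]
  congr 1
  simp only [map_mul, Complex.conj_ofReal, Complex.conj_I, map_ofNat]
  push_cast
  ring

private theorem ee_sum {ι : Type} (s : Finset ι) (f : ι → ℝ) :
    ∏ i ∈ s, ee (f i) = ee (∑ i ∈ s, f i) := by
  classical
  induction s using Finset.induction_on with
  | empty => simp [ee_zero]
  | insert a s ha ih => rw [prod_insert ha, sum_insert ha, ee_add, ih]

private theorem ee_nat (x : ℝ) (u : ℕ) : ee (x * u) = ee x ^ u := by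
  unfold ee
  rw [← Complex.exp_nat_mul]
  congr 1
  push_cast
  ring

private theorem ee_eq_one {x : ℝ} (h : ee x = 1) : ∃ m : ℤ, x = m := by
  unfold ee at h
  rw [Complex.exp_eq_one_iff] at h
  obtain ⟨m, hm⟩ := h
  refine ⟨m, ?_⟩
  have h2 : (2 * Real.pi * Complex.I : ℂ) ≠ 0 := by
    simp [Real.pi_ne_zero]
  have h3 : (x : ℂ) * (2 * Real.pi * Complex.I) = m * (2 * Real.pi * Complex.I) := by
    rw [← hm]; ring
  have h4 := mul_right_cancel₀ h2 h3
  exact_mod_cast h4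

private theorem prodJ {ι : Type} [Fintype ι] [DecidableEq ι] (J : Finset ι) (N : ℕ) (y : ι → ℝ) :
    ∏ i ∈ J, ∑ a ∈ range N, ee (a * y i) = ∑ a ∈ PJ J N, ee (∑ i, (a i : ℝ) * y i) := by
  have h1 : ∏ i ∈ J, ∑ a ∈ range N, ee (a * y i) =
      ∏ i, ∑ a ∈ (if i ∈ J then range N else {0}), ee (a * y i) := by
    rw [← Finset.prod_subset (Finset.subset_univ J)]
    · refine prod_congr rfl fun i hi => ?_
      rw [if_pos hi]
    · intro i _ hi
      rw [if_neg hi]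
      simp [ee_zero]
  rw [h1, Finset.prod_univ_sum]
  refine sum_congr rfl fun a _ => ?_
  rw [ee_sum]

private theorem prodF {ι : Type} [Fintype ι] [DecidableEq ι] (J : Finset ι) (N : ℕ) (y : ι → ℝ) :
    ((∏ i ∈ J, Fj N (y i) : ℝ) : ℂ) = (1 / (N : ℂ) ^ J.card) *
      ∑ a ∈ PJ J N, ∑ b ∈ PJ J N, ee (∑ i, ((a i : ℝ) - b i) * y i) := by
  have h0 : ∏ i ∈ J, Fj N (y i) = ‖∏ i ∈ J, ∑ a ∈ range N, ee (a * y i)‖ ^ 2 / (N : ℝ) ^ J.card := by
    unfold Fj
    rw [prod_div_distrib, prod_const, norm_prod, prod_pow]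
  rw [h0, prodJ]
  push_cast
  rw [← Complex.mul_conj', map_sum, sum_mul_sum, div_eq_mul_inv, mul_comm, one_div]
  congr 1
  refine sum_congr rfl fun a _ => sum_congr rfl fun b _ => ?_
  rw [ee_conj, ← ee_add]
  congr 1
  rw [← sub_eq_add_neg, ← sum_sub_distrib]
  refine sum_congr rfl fun i _ => ?_
  ring

private theorem geo (p n : ℕ) (hp : p.Prime) (w0 K : ℤ) (ξ : ℝ) (h : ¬ (p : ℤ) ^ n ∣ K) :
    ∑ u ∈ range (p ^ n), ee ((K : ℝ) * (w0 + p * u) / p ^ (n + 1) - ξ) = 0 := by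
  have hp0 : (p : ℝ) ≠ 0 := by exact_mod_cast hp.ne_zero
  have e : ∀ u : ℕ, ee ((K : ℝ) * (w0 + p * u) / p ^ (n + 1) - ξ) =
      ee ((K : ℝ) * w0 / p ^ (n + 1) - ξ) * ee ((K : ℝ) / p ^ n) ^ u := by
    intro u
    rw [← ee_nat, ← ee_add]
    congr 1
    rw [pow_succ]
    field_simp
    ring
  rw [sum_congr rfl fun u _ => e u, ← mul_sum]
  have hz : ee ((K : ℝ) / p ^ n) ≠ 1 := by
    intro h1
    obtain ⟨m, hm⟩ := ee_eq_one h1
    rw [div_eq_iff (pow_ne_zero _ hp0)] at hm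
    exact h ⟨m, by
      have : (K : ℝ) = ((p : ℤ) ^ n * m : ℤ) := by push_cast; rw [hm]; ring
      exact_mod_cast this⟩
  have hpow : ee ((K : ℝ) / p ^ n) ^ (p ^ n) = 1 := by
    rw [← ee_nat]
    have : (K : ℝ) / p ^ n * ((p ^ n : ℕ) : ℝ) = ((K : ℤ) : ℝ) := by
      push_cast
      rw [div_mul_cancel₀ _ (pow_ne_zero _ hp0)]
    rw [this, ee_int]
  rw [geom_sum_eq hz, hpow]
  simp

private theorem one (p n : ℕ) (hp : p.Prime) (w0 K : ℤ) (ξ : ℝ) (h : (p : ℤ) ^ (n + 1) ∣ K)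
    (hξ : ∃ m : ℤ, ξ = m) :
    ∑ u ∈ range (p ^ n), ee ((K : ℝ) * (w0 + p * u) / p ^ (n + 1) - ξ) = (p : ℂ) ^ n := by
  have hp0 : (p : ℝ) ≠ 0 := by exact_mod_cast hp.ne_zero
  obtain ⟨m, rfl⟩ := hξ
  obtain ⟨k, rfl⟩ := h
  have e : ∀ u : ℕ, ee ((((p : ℤ) ^ (n + 1) * k : ℤ) : ℝ) * (w0 + p * u) / p ^ (n + 1) - m) = 1 := by
    intro u
    have : (((p : ℤ) ^ (n + 1) * k : ℤ) : ℝ) * (w0 + p * u) / p ^ (n + 1) - m =
        ((k * (w0 + p * u) - m : ℤ) : ℝ) := by
      push_cast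
      field_simp
    rw [this, ee_int]
  rw [sum_congr rfl fun u _ => e u]
  simp

theorem tAvg : S_Avg := by
  classical
  intro ι _ _ p n N w0 E x R hp hN H1 H2 J
  have hC : ((∑ u ∈ range (p ^ n), ∏ i ∈ J,
      Fj N ((E i : ℝ) * (w0 + p * u) / p ^ (n + 1) - x i) : ℝ) : ℂ) =
      ((p : ℝ) ^ n * (cnt J N R : ℝ) / (N : ℝ) ^ J.card : ℝ) := by
    rw [Complex.ofReal_sum]
    have e1 : ∀ u ∈ range (p ^ n), ((∏ i ∈ J,
        Fj N ((E i : ℝ) * (w0 + p * u) / p ^ (n + 1) - x i) : ℝ) : ℂ) =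
        (1 / (N : ℂ) ^ J.card) * ∑ ab ∈ PJ J N ×ˢ PJ J N,
          ee (((∑ i, ((ab.1 i : ℤ) - ab.2 i) * E i : ℤ) : ℝ) * (w0 + p * u) / p ^ (n + 1) -
            ∑ i, (((ab.1 i : ℤ) - ab.2 i : ℤ) : ℝ) * x i) := by
      intro u _
      rw [prodF, sum_product]
      congr 1
      refine sum_congr rfl fun a _ => sum_congr rfl fun b _ => ?_
      congr 1
      push_cast
      rw [sum_mul, sum_div, ← sum_sub_distrib]
      refine sum_congr rfl fun i _ => ?_
      ring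
    rw [sum_congr rfl e1, ← mul_sum, sum_comm]
    have e2 : ∀ ab ∈ PJ J N ×ˢ PJ J N, ∑ u ∈ range (p ^ n),
        ee (((∑ i, ((ab.1 i : ℤ) - ab.2 i) * E i : ℤ) : ℝ) * (w0 + p * u) / p ^ (n + 1) -
            ∑ i, (((ab.1 i : ℤ) - ab.2 i : ℤ) : ℝ) * x i) =
        if R (fun i => (ab.1 i : ℤ) - ab.2 i) then (p : ℂ) ^ n else 0 := by
      rintro ⟨a, b⟩ hab
      split_ifs with hR
      · obtain ⟨h1, h2⟩ := H1 _ hR
        exact one p n hp w0 _ _ h1 h2
      · refine geo p n hp w0 _ _ (H2 _ ?_ hR)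
        intro i
        rw [mem_product] at hab
        have ha := Fintype.mem_piFinset.1 hab.1 i
        have hb := Fintype.mem_piFinset.1 hab.2 i
        have ha' : a i < N := by
          split_ifs at ha with h
          · exact mem_range.1 ha
          · rw [mem_singleton] at ha
            exact lt_of_eq_of_lt ha hN
        have hb' : b i < N := by
          split_ifs at hb with h
          · exact mem_range.1 hb
          · rw [mem_singleton] at hb
            exact lt_of_eq_of_lt hb hN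
        simp only
        rw [abs_lt]
        omega
    rw [sum_congr rfl e2, ← sum_filter, sum_const, nsmul_eq_mul]
    unfold cnt
    push_cast
    ring
  exact_mod_cast hC

end Pool.Agent.FW.C
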