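import Pool.Agent.Lib.FW.SpecC

/-! Complex roots of unity with the relations of the Teichmueller representatives (FW, Part C). -/

noncomputable section

namespace Pool.Agent.FW.C

open Finset

private theorem eq_zero_of_dvd (p : ℕ) [hp : Fact p.Prime] (x : ℤ_[p])
    (h : ∀ n : ℕ, (p : ℤ_[p]) ^ (n + 1) ∣ x) : x = 0 := by
  by_contra hx
  have h1 := (PadicInt.mem_span_pow_iff_le_valuation x hx (x.valuation + 1)).1
    (Ideal.mem_span_singleton.2 (h x.valuation))
  omega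

private theorem unit_eq (p : ℕ) [hp : Fact p.Prime] (η : (ZMod p)ˣ) (z : ℤ)
    (h : (p : ℤ_[p]) ∣ (z : ℤ_[p]) - ((η : ZMod p).val : ℤ_[p])) : ((z : ZMod p)) = η := by
  have h1 : (p : ℤ_[p]) ∣ ((z - ((η : ZMod p).val : ℤ) : ℤ) : ℤ_[p]) := by
    push_cast
    exact h
  rw [← PadicInt.norm_lt_one_iff_dvd, PadicInt.norm_int_lt_one_iff_dvd,
    ← ZMod.intCast_zmod_eq_zero_iff_dvd] at h1
  push_cast at h1
  rw [ZMod.natCast_zmod_val] at h1
  exact sub_eq_zero.1 h1

private theorem real_unit (z : ℂ) (h1 : ‖z‖ = 1) (h2 : z.im = 0) : z = 1 ∨ z = -1 := by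
  have h3 : z.re * z.re + z.im * z.im = 1 := by
    rw [← Complex.normSq_apply, ← Complex.sq_norm, h1, one_pow]
  rw [h2, mul_zero, add_zero] at h3
  rcases mul_self_eq_one_iff.1 h3 with h4 | h4
  · left
    exact Complex.ext h4 h2
  · right
    refine Complex.ext h4 ?_
    rw [h2]
    simp

theorem tEmb (hTeiB : S_TeiB) (hTei : S_Tei) : S_Emb := by
  intro p hp hp2
  obtain ⟨-, hB1, hB2⟩ := hTeiB p
  obtain ⟨T, hT1, hT2⟩ := hTei p
  have hpp : p - 1 ≠ 0 := Nat.sub_ne_zero_of_lt hp.out.one_lt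
  have hT0 : ∀ η : (ZMod p)ˣ, (p : ℤ_[p]) ∣ T η - ((η : ZMod p).val : ℤ_[p]) := by
    intro η
    have h := hT2 η 0
    unfold tei at h
    rwa [zero_add, pow_one, pow_zero, pow_one] at h
  have t1 : T 1 = 1 := by
    refine sub_eq_zero.1 (eq_zero_of_dvd p _ fun n => ?_)
    have h := hT2 1 n
    rwa [hB1, Nat.cast_one] at h
  have t2 : T (-1) = -1 := by
    refine add_eq_zero_iff_eq_neg.1 (eq_zero_of_dvd p _ fun n => ?_)
    obtain ⟨d, hd⟩ := hB2 hp2 n
    have e : (tei p n (-1) : ℤ_[p]) + 1 = (p : ℤ_[p]) ^ (n + 1) * (d : ℤ_[p]) := by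
      have e1 := congrArg (Int.cast : ℤ → ℤ_[p]) hd
      push_cast at e1
      exact e1
    have h := dvd_add (hT2 (-1) n) (Dvd.intro _ e.symm)
    have e2 : T (-1) - (tei p n (-1) : ℤ_[p]) + ((tei p n (-1) : ℤ_[p]) + 1) = T (-1) + 1 := by
      ring
    rwa [e2] at h
  let S : Set ℚ_[p] := Set.range fun η => ((T η : ℤ_[p]) : ℚ_[p])
  let F : IntermediateField ℚ ℚ_[p] := IntermediateField.adjoin ℚ S
  have hpow : ∀ η, ((T η : ℤ_[p]) : ℚ_[p]) ^ (p - 1) = 1 := by
    intro η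
    rw [← PadicInt.coe_pow, hT1, PadicInt.coe_one]
  have hint : ∀ x ∈ S, IsIntegral ℚ x := by
    rintro _ ⟨η, rfl⟩
    refine ⟨Polynomial.X ^ (p - 1) - Polynomial.C 1, Polynomial.monic_X_pow_sub_C 1 hpp, ?_⟩
    rw [Polynomial.eval₂_sub, Polynomial.eval₂_X_pow, Polynomial.eval₂_C, map_one, hpow η,
      sub_self]
  have halg : Algebra.IsAlgebraic ℚ F := IntermediateField.isAlgebraic_adjoin hint
  let σ : F →ₐ[ℚ] ℂ := IsAlgClosed.lift
  have hmem : ∀ η, ((T η : ℤ_[p]) : ℚ_[p]) ∈ F := fun η =>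
    IntermediateField.subset_adjoin ℚ S ⟨η, rfl⟩
  let τ : (ZMod p)ˣ → F := fun η => ⟨_, hmem η⟩
  have hσ : Function.Injective σ := σ.toRingHom.injective
  have hτ : ∀ η, τ η ^ (p - 1) = 1 := fun η => Subtype.ext (hpow η)
  have hval : ∀ η (z : ℤ), τ η = z → T η = z := by
    intro η z h
    have h1 : ((T η : ℤ_[p]) : ℚ_[p]) = ((z : ℤ_[p]) : ℚ_[p]) := by
      have h2 := congrArg (fun x : F => (x : ℚ_[p])) h
      simpa using h2
    exact Subtype.ext h1
  have hnorm : ∀ η, ‖σ (τ η)‖ = 1 := by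
    intro η
    refine Complex.norm_eq_one_of_pow_eq_one (n := p - 1) ?_ hpp
    rw [← map_pow, hτ, map_one]
  refine ⟨fun η => σ (τ η), ?_, ?_, hnorm, ?_, ?_⟩
  · have h : τ 1 = 1 := Subtype.ext (by change ((T 1 : ℤ_[p]) : ℚ_[p]) = 1; rw [t1]; rfl)
    change σ (τ 1) = 1
    rw [h, map_one]
  · have h : τ (-1) = -1 := Subtype.ext (by
      change ((T (-1) : ℤ_[p]) : ℚ_[p]) = ((-1 : F) : ℚ_[p])
      rw [t2]
      simp)
    change σ (τ (-1)) = -1
    rw [h, map_neg, map_one]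
  · intro η h1 h2 him
    rcases real_unit _ (hnorm η) him with h3 | h3
    · have h4 : τ η = ((1 : ℤ) : F) := hσ (by rw [h3, Int.cast_one, map_one])
      have h5 := hval η 1 h4
      have h6 := hT0 η
      rw [h5] at h6
      apply h1
      have h7 := unit_eq p η 1 h6
      rw [Int.cast_one] at h7
      exact Units.ext h7.symm
    · have h4 : τ η = ((-1 : ℤ) : F) := hσ (by
        rw [h3, Int.cast_neg, Int.cast_one, map_neg, map_one])
      have h5 := hval η (-1) h4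
      have h6 := hT0 η
      rw [h5] at h6
      apply h2
      have h7 := unit_eq p η (-1) h6
      rw [Int.cast_neg, Int.cast_one] at h7
      exact Units.ext h7.symm
  · intro k hk
    have h1 : ∑ η, (k η : ℤ_[p]) * T η = 0 := by
      refine eq_zero_of_dvd p _ fun n => ?_
      obtain ⟨d, hd⟩ := hk n
      have h2 : ∑ η, (k η : ℤ_[p]) * T η =
          ∑ η, (k η : ℤ_[p]) * (T η - (tei p n η : ℤ_[p])) + (p : ℤ_[p]) ^ (n + 1) * d := by
        have h3 : ((∑ η, k η * (tei p n η : ℤ) : ℤ) : ℤ_[p]) = (p : ℤ_[p]) ^ (n + 1) * d := by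
          rw [hd]
          push_cast
          rfl
        rw [← h3]
        push_cast
        rw [← Finset.sum_add_distrib]
        refine Finset.sum_congr rfl fun η _ => ?_
        ring
      rw [h2]
      refine dvd_add (Finset.dvd_sum fun η _ => Dvd.dvd.mul_left (hT2 η n) _) (dvd_mul_right _ _)
    have h4 : ∑ η, (k η : F) * τ η = 0 := by
      apply Subtype.ext
      have h5 := congrArg (fun x : ℤ_[p] => (x : ℚ_[p])) h1
      simp only [PadicInt.coe_sum, PadicInt.coe_mul, PadicInt.coe_intCast, PadicInt.coe_zero] at h5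
      have h7 : ((∑ η, (k η : F) * τ η : F) : ℚ_[p]) =
          ∑ z, (k z : ℚ_[p]) * ((T z : ℤ_[p]) : ℚ_[p]) := by simp [τ]
      exact h7.trans h5
    have h6 := congrArg σ h4
    rw [map_sum, map_zero] at h6
    simpa using h6

end Pool.Agent.FW.C
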