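import Pool.Agent.Lib.FW.SpecC

/-! The function `G` (FW, Part C). -/

noncomputable section

namespace Pool.Agent.FW.C

open Finset

private theorem g_eq {c : ℕ} {y : ℝ} {N M : ℤ} (h1 : (N : ℝ) ≤ y) (h2 : y < N + 1)
    (h3 : (M : ℝ) ≤ c * (y - N)) (h4 : (c : ℝ) * (y - N) < M + 1) : G c y = 2 * M - ((c : ℤ) - 1) := by
  have hN : ⌊y⌋ = N := Int.floor_eq_iff.2 ⟨h1, h2⟩
  have hM : ⌊(c : ℝ) * Int.fract y⌋ = M := by
    rw [Int.fract, hN]
    exact Int.floor_eq_iff.2 ⟨h3, h4⟩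
  unfold G
  rw [hM]

private theorem nint {c : ℕ} {y : ℝ} (h : ∀ m : ℤ, (c : ℝ) * y ≠ m) :
    (⌊y⌋ : ℝ) < y ∧ (⌊(c : ℝ) * (y - ⌊y⌋)⌋ : ℝ) < c * (y - ⌊y⌋) := by
  constructor
  · refine lt_of_le_of_ne (Int.floor_le y) fun h1 => h (c * ⌊y⌋) ?_
    push_cast
    rw [h1]
  · refine lt_of_le_of_ne (Int.floor_le _) fun h1 => h (⌊(c : ℝ) * (y - ⌊y⌋)⌋ + c * ⌊y⌋) ?_
    push_cast
    rw [h1]
    ring

theorem tGG : S_GG := by
  intro c hc
  have hc0 : (0 : ℝ) < c := by exact_mod_cast hc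
  refine ⟨?_, ?_, ?_, ?_, ?_⟩
  · intro y m
    unfold G
    rw [Int.fract_add_intCast]
  · intro y h
    obtain ⟨h1, h3⟩ := nint h
    have h2 := Int.lt_floor_add_one y
    have h4 := Int.lt_floor_add_one ((c : ℝ) * (y - ⌊y⌋))
    set N : ℤ := ⌊y⌋
    set M : ℤ := ⌊(c : ℝ) * (y - N)⌋
    refine ⟨min (min (y - N) (N + 1 - y)) (min ((c * (y - N) - M) / c)
      ((M + 1 - c * (y - N)) / c)), ?_, ?_⟩
    · refine lt_min (lt_min ?_ ?_) (lt_min ?_ ?_)
      · linarith
      · linarith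
      · exact div_pos (by linarith) hc0
      · exact div_pos (by linarith) hc0
    · intro y' hy'
      rw [lt_min_iff, lt_min_iff, lt_min_iff, lt_div_iff₀ hc0, lt_div_iff₀ hc0] at hy'
      obtain ⟨⟨a1, a2⟩, a3, a4⟩ := hy'
      have b1 := abs_le.1 (le_refl |y' - y|)
      have b2 : |y' - y| * c = |c * (y' - y)| := by
        rw [abs_mul, abs_of_pos hc0, mul_comm]
      rw [b2] at a3 a4
      have b3 := abs_le.1 (le_refl |(c : ℝ) * (y' - y)|)
      rw [g_eq (N := N) (M := M) h1.le h2 h3.le h4,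
        g_eq (N := N) (M := M) (by linarith) (by linarith) (by nlinarith) (by nlinarith)]
  · intro y h
    obtain ⟨h1, h3⟩ := nint h
    have h2 := Int.lt_floor_add_one y
    have h4 := Int.lt_floor_add_one ((c : ℝ) * (y - ⌊y⌋))
    set N : ℤ := ⌊y⌋
    set M : ℤ := ⌊(c : ℝ) * (y - N)⌋
    rw [g_eq (N := N) (M := M) h1.le h2 h3.le h4,
      g_eq (c := c) (y := -y) (N := -N - 1) (M := c - 1 - M) (by push_cast; linarith)
        (by push_cast; linarith) (by push_cast; nlinarith) (by push_cast; nlinarith)]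
    ring
  · intro hc2
    have hc2' : (2 : ℝ) ≤ c := by exact_mod_cast hc2
    have hd : (c : ℝ) * (1 / c) = 1 := mul_one_div_cancel hc0.ne'
    refine ⟨1 / c, one_div_pos.2 hc0, ?_, ?_⟩
    · intro y h1 h2
      have h5 : 0 < 1 / (c : ℝ) := one_div_pos.2 hc0
      have h6 : (c : ℝ) * y < 2 := by nlinarith
      rw [g_eq (N := 0) (M := 1) (by push_cast; linarith) (by push_cast; nlinarith)
        (by push_cast; nlinarith) (by push_cast; nlinarith)]
      ring
    · intro y h1 h2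
      have h6 : (c : ℝ) * y < 1 := by nlinarith
      rw [g_eq (N := 0) (M := 0) (by push_cast; linarith) (by push_cast; nlinarith)
        (by push_cast; nlinarith) (by push_cast; nlinarith)]
      ring
  · intro m a ham
    have hm : (0 : ℝ) < m := by exact_mod_cast (Nat.zero_le a).trans_lt ham
    have h1 : (a : ℝ) / m < 1 := by
      rw [div_lt_one hm]
      exact_mod_cast ham
    have h2 : (((c * a / m : ℕ) : ℤ) : ℝ) ≤ c * ((a : ℝ) / m - (0 : ℤ)) := by
      rw [Int.cast_zero, sub_zero, ← mul_div_assoc, le_div_iff₀ hm]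
      exact_mod_cast Nat.div_mul_le_self (c * a) m
    have h3 : (c : ℝ) * ((a : ℝ) / m - (0 : ℤ)) < ((c * a / m : ℕ) : ℤ) + 1 := by
      rw [Int.cast_zero, sub_zero, ← mul_div_assoc, div_lt_iff₀ hm]
      have h4 := Nat.div_add_mod (c * a) m
      have h5 := Nat.mod_lt (c * a) (Nat.lt_of_le_of_lt (Nat.zero_le a) ham)
      have h6 : c * a < (c * a / m + 1) * m := by nlinarith
      exact_mod_cast h6
    rw [g_eq (N := 0) (by rw [Int.cast_zero]; positivity) (by rw [Int.cast_zero, zero_add]; exact h1)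
      h2 h3]
    rfl

end Pool.Agent.FW.C
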