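import Pool.Agent.Lib.FW.SpecC

/-!
FW, Part C, module Geo (helper26): the Fejer kernel away from the integers.
-/

noncomputable section

namespace Pool.Agent.FW.C

open Finset

private theorem Geo_pow (a : ℕ) (y : ℝ) : ee (a * y) = ee y ^ a := by
  unfold ee
  rw [← Complex.exp_nat_mul]
  congr 1
  push_cast
  ring

private theorem Geo_norm (y : ℝ) : ‖ee y‖ = 1 := by
  unfold ee
  have h : (2 * Real.pi * y * Complex.I : ℂ) = ((2 * Real.pi * y : ℝ) : ℂ) * Complex.I := by push_cast; ring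
  rw [h, Complex.norm_exp_ofReal_mul_I]

private theorem Geo_sub (y : ℝ) : ‖ee y - 1‖ = 2 * |Real.sin (Real.pi * y)| := by
  unfold ee
  have h : (2 * Real.pi * y * Complex.I : ℂ) = Complex.I * ((2 * Real.pi * y : ℝ) : ℂ) := by push_cast; ring
  rw [h, Complex.norm_exp_I_mul_ofReal_sub_one, Real.norm_eq_abs, abs_mul, abs_of_pos two_pos]
  congr 3
  ring

private theorem Geo_sin (y : ℝ) : 2 * dz y ≤ |Real.sin (Real.pi * y)| := by
  have h1 : |Real.sin (Real.pi * y)| = |Real.sin (Real.pi * (y - round y))| := by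
    have h2 : Real.pi * (y - round y) = Real.pi * y - (round y : ℤ) * Real.pi := by ring
    rw [h2, Real.sin_sub_int_mul_pi, abs_mul, abs_zpow, abs_neg, abs_one, one_zpow, one_mul]
  have h2 : |Real.sin (Real.pi * (y - round y))| = Real.sin (Real.pi * |y - round y|) := by
    have h3 : 0 ≤ Real.sin (Real.pi * |y - round y|) := by
      apply Real.sin_nonneg_of_nonneg_of_le_pi (by positivity)
      have h4 := abs_sub_round y
      nlinarith [Real.pi_pos]
    rcases abs_cases (y - round y) with ⟨h4, -⟩ | ⟨h4, -⟩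
    · rw [h4] at h3 ⊢
      exact abs_of_nonneg h3
    · rw [h4] at h3 ⊢
      rw [mul_neg, Real.sin_neg] at h3 ⊢
      exact abs_of_nonpos (by linarith)
  have h3 := Real.mul_le_sin (x := Real.pi * |y - round y|) (by positivity) (by
    have h4 := abs_sub_round y
    nlinarith [Real.pi_pos])
  rw [h1, h2]
  calc 2 * dz y = 2 / Real.pi * (Real.pi * |y - round y|) := by
        unfold dz
        field_simp
    _ ≤ _ := h3

theorem tGeo : S_Geo := by
  intro N y δ hN hδ hy
  have h1 : ∑ a ∈ range N, ee (a * y) = ∑ a ∈ range N, ee y ^ a := sum_congr rfl fun a _ => Geo_pow a y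
  have h2 := geom_sum_mul (ee y) N
  have h3 : ‖ee y - 1‖ ≥ 4 * δ := by
    rw [Geo_sub]
    have := Geo_sin y
    linarith
  have h4 : ‖∑ a ∈ range N, ee (a * y)‖ * ‖ee y - 1‖ ≤ 2 := by
    rw [h1, ← norm_mul, h2]
    refine (norm_sub_le _ _).trans ?_
    rw [norm_pow, Geo_norm, one_pow, norm_one]
    norm_num
  set T := ‖∑ a ∈ range N, ee (a * y)‖ with hT
  have hT0 : 0 ≤ T := norm_nonneg _
  have h5 : T * (2 * δ) ≤ 1 := by nlinarith
  have hN' : (0 : ℝ) < N := by exact_mod_cast hN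
  unfold Fj
  rw [← hT, div_le_div_iff₀ hN' (by positivity)]
  have h6 : (T * (2 * δ)) ^ 2 ≤ 1 := pow_le_one₀ (by positivity) h5
  have h7 : T ^ 2 * (4 * N * δ ^ 2) = (T * (2 * δ)) ^ 2 * N := by ring
  rw [h7]
  exact mul_le_mul_of_nonneg_right h6 hN'.le

end Pool.Agent.FW.C
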