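import Pool.Agent.Lib.FW.SpecC

/-!
FW, Part C, module HH (helper26): the function hh.
-/

noncomputable section

namespace Pool.Agent.FW.C

open Finset

private theorem HH_min {ι : Type} [Fintype ι] (ρ : ι → ℝ) (h : ∀ i, 0 < ρ i) :
    ∃ r : ℝ, 0 < r ∧ ∀ i, r ≤ ρ i := by
  by_cases hne : Nonempty ι
  · obtain ⟨i0, -, hi0⟩ := Finset.exists_min_image univ ρ ⟨hne.some, mem_univ _⟩
    exact ⟨ρ i0, h i0, fun i => hi0 i (mem_univ i)⟩
  · exact ⟨1, one_pos, fun i => absurd ⟨i⟩ hne⟩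

private theorem HH_int (f c : ℕ) [NeZero f] (y : ℝ) (hy : ∀ m : ℤ, (f : ℝ) * c * y ≠ m) (v : ℕ) :
    ∀ m : ℤ, (c : ℝ) * (y + (v : ℝ) / f) ≠ m := by
  intro m hm
  have hf : (f : ℝ) ≠ 0 := Nat.cast_ne_zero.2 (NeZero.ne f)
  apply hy (f * m - c * v)
  push_cast
  rw [← hm]
  field_simp
  ring

private theorem HH_neg (f : ℕ) [NeZero f] (b : ZMod f) :
    ∃ m : ℤ, ((-b).val : ℝ) / f = -((b.val : ℝ) / f) + m := by
  have hf : (f : ℝ) ≠ 0 := Nat.cast_ne_zero.2 (NeZero.ne f)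
  have h1 : f ∣ (-b).val + b.val := by
    rw [← ZMod.natCast_eq_zero_iff]
    push_cast
    rw [ZMod.natCast_zmod_val, ZMod.natCast_zmod_val, neg_add_cancel]
  obtain ⟨m, hm⟩ := h1
  refine ⟨m, ?_⟩
  have h2 : ((-b).val : ℝ) + b.val = f * m := by exact_mod_cast hm
  have h3 : ((-b).val : ℝ) = f * m - b.val := by linarith
  rw [h3]
  push_cast
  field_simp
  ring

theorem tHH (hGG : S_GG) : S_HH := by
  intro f c _ hc hcf κ _ χ
  obtain ⟨g1, g2, g3, g4, -⟩ := hGG c (by omega)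
  obtain ⟨ρ4, hρ4, g4, g4'⟩ := g4 hc
  have hf : (f : ℝ) ≠ 0 := Nat.cast_ne_zero.2 (NeZero.ne f)
  have hc0 : (c : ℝ) ≠ 0 := Nat.cast_ne_zero.2 (by omega)
  refine ⟨?_, ?_, ?_, ?_⟩
  · -- period 1
    intro y m
    unfold hh
    refine sum_congr rfl fun b _ => ?_
    have h1 : y + m + ((b : ZMod f).val : ℝ) / f = y + ((b : ZMod f).val : ℝ) / f + m := by ring
    rw [h1, g1]
  · -- locally constant
    intro y hy
    have h1 : ∀ b : (ZMod f)ˣ, ∃ ρ : ℝ, 0 < ρ ∧ ∀ y' : ℝ, |y' - (y + ((b : ZMod f).val : ℝ) / f)| < ρ →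
        G c y' = G c (y + ((b : ZMod f).val : ℝ) / f) := fun b => g2 _ (HH_int f c y hy _)
    choose ρ hρ h2 using h1
    obtain ⟨r, hr, hr'⟩ := HH_min ρ hρ
    refine ⟨r, hr, fun y' hy' => ?_⟩
    unfold hh
    refine sum_congr rfl fun b _ => ?_
    rw [h2 b (y' + ((b : ZMod f).val : ℝ) / f)]
    rw [add_sub_add_right_eq_sub]
    exact hy'.trans_le (hr' b)
  · -- parity
    intro y hy
    have h1 : hh f c χ (-y) = ∑ b : (ZMod f)ˣ, (((χ (-b))⁻¹ : κˣ) : κ) *
        ((G c (-y + ((-b : (ZMod f)ˣ) : ZMod f).val / f) : ℤ) : κ) :=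
      (Equiv.sum_comp (Equiv.neg (ZMod f)ˣ) (fun b : (ZMod f)ˣ => (((χ b)⁻¹ : κˣ) : κ) *
        ((G c (-y + (b : ZMod f).val / f) : ℤ) : κ))).symm
    have h2 : (χ (-1))⁻¹ = χ (-1) := by
      rw [inv_eq_iff_mul_eq_one, ← map_mul, neg_one_mul, neg_neg, map_one]
    rw [h1]
    unfold hh
    rw [mul_sum]
    refine sum_congr rfl fun b _ => ?_
    have h3 : G c (-y + ((-b : (ZMod f)ˣ) : ZMod f).val / f) = -G c (y + (b : ZMod f).val / f) := by
      obtain ⟨m, hm⟩ := HH_neg f (b : ZMod f)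
      rw [Units.val_neg, hm, ← g3 _ (HH_int f c y hy _)]
      have h4 : -y + (-(((b : ZMod f).val : ℝ) / f) + m) = -(y + ((b : ZMod f).val : ℝ) / f) + m := by ring
      rw [h4, g1]
    have h4 : (χ (-b))⁻¹ = χ (-1) * (χ b)⁻¹ := by
      have h5 : -b = -1 * b := by rw [neg_one_mul]
      rw [h5, map_mul, mul_inv, h2]
    rw [h3, h4, Units.val_mul]
    push_cast
    ring
  · -- the jump
    set t0 : ℝ := 1 / c - ((1 : ZMod f).val : ℝ) / f with ht0
    have h1 : ∀ b : (ZMod f)ˣ, ∃ ρ : ℝ, 0 < ρ ∧ (b ≠ 1 → ∀ y' : ℝ,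
        |y' - (t0 + ((b : ZMod f).val : ℝ) / f)| < ρ → G c y' = G c (t0 + ((b : ZMod f).val : ℝ) / f)) := by
      intro b
      by_cases hb : b = 1
      · exact ⟨1, one_pos, fun h => absurd hb h⟩
      · have h2 : ∀ m : ℤ, (c : ℝ) * (t0 + ((b : ZMod f).val : ℝ) / f) ≠ m := by
          intro m hm
          have h3 : (c : ℝ) * (((b : ZMod f).val : ℝ) - ((1 : ZMod f).val : ℝ)) = (m - 1) * f := by
            rw [← hm, ht0]
            field_simp
            ring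
          have h4 : (c : ℤ) * (((b : ZMod f).val : ℤ) - ((1 : ZMod f).val : ℤ)) = (m - 1) * f := by
            exact_mod_cast h3
          have h5 : (f : ℤ) ∣ (c : ℤ) * (((b : ZMod f).val : ℤ) - ((1 : ZMod f).val : ℤ)) := by
            rw [h4]
            exact dvd_mul_left _ _
          have h6 : (f : ℤ) ∣ ((b : ZMod f).val : ℤ) - ((1 : ZMod f).val : ℤ) :=
            (Nat.isCoprime_iff_coprime.2 hcf.symm).dvd_of_dvd_mul_left h5
          have h7 : ((((b : ZMod f).val : ℤ) - ((1 : ZMod f).val : ℤ) : ℤ) : ZMod f) = 0 :=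
            (ZMod.intCast_zmod_eq_zero_iff_dvd _ _).2 h6
          push_cast at h7
          rw [ZMod.natCast_zmod_val, ZMod.natCast_zmod_val, sub_eq_zero] at h7
          exact hb (Units.ext h7)
        obtain ⟨ρ, hρ, h3⟩ := g2 _ h2
        exact ⟨ρ, hρ, fun _ => h3⟩
    choose ρ hρ h2 using h1
    obtain ⟨r, hr, hr'⟩ := HH_min ρ hρ
    refine ⟨min r ρ4, lt_min hr hρ4, ?_⟩
    intro y y' hy1 hy2 hy3 hy4
    have hy2r := hy2.trans_le (min_le_left _ _)
    have hy2ρ := hy2.trans_le (min_le_right _ _)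
    have hy4r := hy4.trans_le (min_le_left _ _)
    have hy4ρ := hy4.trans_le (min_le_right _ _)
    unfold hh
    rw [← sum_sub_distrib, sum_eq_single (1 : (ZMod f)ˣ)]
    · have e1 : y + (((1 : (ZMod f)ˣ) : ZMod f).val : ℝ) / f = 1 / c + (y - t0) := by
        rw [ht0, Units.val_one]
        ring
      have e2 : y' + (((1 : (ZMod f)ˣ) : ZMod f).val : ℝ) / f = 1 / c - (t0 - y') := by
        rw [ht0, Units.val_one]
        ring
      have e3 := g4 (y + (((1 : (ZMod f)ˣ) : ZMod f).val : ℝ) / f) (by rw [e1]; linarith) (by rw [e1]; linarith)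
      have e4 := g4' (y' + (((1 : (ZMod f)ˣ) : ZMod f).val : ℝ) / f) (by rw [e2]; linarith)
        (by rw [e2]; linarith)
      rw [e3, e4, map_one, inv_one, Units.val_one]
      push_cast
      ring
    · intro b _ hb
      have e1 := h2 b hb (y + ((b : ZMod f).val : ℝ) / f) (by
        rw [add_sub_add_right_eq_sub, abs_of_pos hy1]
        exact hy2r.trans_le (hr' b))
      have e2 := h2 b hb (y' + ((b : ZMod f).val : ℝ) / f) (by
        rw [add_sub_add_right_eq_sub, abs_sub_comm, abs_of_pos hy3]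
        exact hy4r.trans_le (hr' b))
      rw [e1, e2, sub_self]
    · intro h
      exact absurd (mem_univ _) h

end Pool.Agent.FW.C
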