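import Pool.Agent.Lib.FW.SpecC

/-!
FW, Part C, module Kro (helper26): Kronecker's theorem for the points `E_i w / p^(n+1)`.
-/

noncomputable section

namespace Pool.Agent.FW.C

open Finset

private theorem Kro_Fj0 (N : ℕ) (y : ℝ) : 0 ≤ Fj N y := by
  unfold Fj
  positivity

/-- comparison of the numbers of pairs -/
private theorem Kro_cnt {ι : Type} [Fintype ι] [DecidableEq ι] (i : ι) (N : ℕ) (R : (ι → ℤ) → Prop) :
    cnt (univ.erase i) N R * N ≤ cnt univ N R := by
  classical
  have hm : ∀ a : ι → ℕ, a ∈ PJ (univ.erase i) N ↔ (∀ j, j ≠ i → a j < N) ∧ a i = 0 := by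
    intro a
    unfold PJ
    rw [Fintype.mem_piFinset]
    constructor
    · intro h
      refine ⟨fun j hj => ?_, ?_⟩
      · have h1 := h j
        rw [if_pos (mem_erase.2 ⟨hj, mem_univ j⟩)] at h1
        exact mem_range.1 h1
      · have h1 := h i
        rw [if_neg (notMem_erase i univ)] at h1
        exact mem_singleton.1 h1
    · rintro ⟨h1, h2⟩ j
      by_cases hj : j = i
      · subst hj
        rw [if_neg (notMem_erase j univ), h2]
        exact mem_singleton_self 0
      · rw [if_pos (mem_erase.2 ⟨hj, mem_univ j⟩)]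
        exact mem_range.2 (h1 j hj)
  have hm' : ∀ a : ι → ℕ, a ∈ PJ univ N ↔ ∀ j, a j < N := by
    intro a
    unfold PJ
    rw [Fintype.mem_piFinset]
    refine forall_congr' fun j => ?_
    rw [if_pos (mem_univ j), mem_range]
  unfold cnt
  rw [← card_range N, ← card_product, card_range]
  refine card_le_card_of_injOn
    (fun x : ((ι → ℕ) × (ι → ℕ)) × ℕ => (Function.update x.1.1 i x.2, Function.update x.1.2 i x.2)) ?_ ?_
  · rintro ⟨⟨a, b⟩, t⟩ hx
    have hx := mem_coe.1 hx
    rw [mem_product, mem_filter, mem_product] at hx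
    obtain ⟨⟨⟨ha, hb⟩, hR⟩, ht⟩ := hx
    simp only at ha hb hR ht
    rw [hm] at ha hb
    rw [mem_range] at ht
    refine mem_coe.2 (mem_filter.2 ⟨mem_product.2 ⟨(hm' _).2 fun j => ?_, (hm' _).2 fun j => ?_⟩, ?_⟩)
    · by_cases hj : j = i
      · subst hj
        change Function.update a j t j < N
        rw [Function.update_self]
        exact ht
      · change Function.update a i t j < N
        rw [Function.update_of_ne hj]
        exact ha.1 j hj
    · by_cases hj : j = i
      · subst hj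
        change Function.update b j t j < N
        rw [Function.update_self]
        exact ht
      · change Function.update b i t j < N
        rw [Function.update_of_ne hj]
        exact hb.1 j hj
    · have h1 : (fun j => ((Function.update a i t j : ℕ) : ℤ) - (Function.update b i t j : ℕ)) =
          fun j => (a j : ℤ) - b j := by
        funext j
        by_cases hj : j = i
        · subst hj
          rw [Function.update_self, Function.update_self, ha.2, hb.2, sub_self, sub_self]
        · rw [Function.update_of_ne hj, Function.update_of_ne hj]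
      change R (fun j => ((Function.update a i t j : ℕ) : ℤ) - (Function.update b i t j : ℕ))
      rw [h1]
      exact hR
  · rintro ⟨⟨a, b⟩, t⟩ hx ⟨⟨a', b'⟩, t'⟩ hx' hf
    have hx := mem_coe.1 hx
    have hx' := mem_coe.1 hx'
    rw [mem_product, mem_filter, mem_product] at hx hx'
    obtain ⟨⟨⟨ha, hb⟩, -⟩, -⟩ := hx
    obtain ⟨⟨⟨ha', hb'⟩, -⟩, -⟩ := hx'
    simp only at ha hb ha' hb'
    rw [hm] at ha hb ha' hb'
    obtain ⟨h1, h2⟩ := Prod.mk.inj hf
    have key : ∀ c c' : ι → ℕ, Function.update c i t = Function.update c' i t' → c i = 0 → c' i = 0 → c = c' := by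
      intro c c' h hc hc'
      funext j
      by_cases hj : j = i
      · subst hj
        rw [hc, hc']
      · have h3 := congrFun h j
        rw [Function.update_of_ne hj, Function.update_of_ne hj] at h3
        exact h3
    have h3 : t = t' := by
      have h4 := congrFun h1 i
      simp only [Function.update_self] at h4
      exact h4
    rw [key a a' h1 ha.2 ha'.2, key b b' h2 hb.2 hb'.2, h3]

/-- a common exponent -/
private theorem Kro_exp {ι : Type} [Fintype ι] [DecidableEq ι] (p : ℕ) (E : ℕ → ι → ℤ)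
    (hE : ∀ n i, (p : ℤ) ^ (n + 1) ∣ E (n + 1) i - E n i) (N : ℕ) :
    ∃ n : ℕ, ∀ k : ι → ℤ, (∀ i, |k i| < N) → ¬ (∀ n, (p : ℤ) ^ (n + 1) ∣ ∑ i, k i * E n i) →
      ¬ (p : ℤ) ^ n ∣ ∑ i, k i * E n i := by
  classical
  have hch : ∀ k : ι → ℤ, ∃ m : ℕ, ¬ (∀ n, (p : ℤ) ^ (n + 1) ∣ ∑ i, k i * E n i) →
      ¬ (p : ℤ) ^ (m + 1) ∣ ∑ i, k i * E m i := by
    intro k
    by_cases h : ∀ n, (p : ℤ) ^ (n + 1) ∣ ∑ i, k i * E n i
    · exact ⟨0, fun h1 => absurd h h1⟩
    · push Not at h
      obtain ⟨m, hm⟩ := h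
      exact ⟨m, fun _ => hm⟩
  choose m hm using hch
  have hcong : ∀ n0 n : ℕ, n0 ≤ n → ∀ i, (p : ℤ) ^ (n0 + 1) ∣ E n i - E n0 i := by
    intro n0 n hn i
    induction n, hn using Nat.le_induction with
    | base => rw [sub_self]; exact dvd_zero _
    | succ n hn ih =>
      have h1 : E (n + 1) i - E n0 i = (E (n + 1) i - E n i) + (E n i - E n0 i) := by ring
      rw [h1]
      exact dvd_add ((pow_dvd_pow _ (by omega)).trans (hE n i)) ih
  set S : Finset (ι → ℤ) := Fintype.piFinset fun _ => Finset.Ioo (-(N : ℤ)) N with hS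
  refine ⟨S.sup m + 1, fun k hk hR hd => ?_⟩
  have hkS : k ∈ S := by
    rw [hS, Fintype.mem_piFinset]
    intro i
    rw [Finset.mem_Ioo]
    exact abs_lt.1 (hk i)
  have hle : m k ≤ S.sup m := Finset.le_sup hkS
  apply hm k hR
  have h1 : (p : ℤ) ^ (m k + 1) ∣ ∑ i, k i * E (S.sup m + 1) i := (pow_dvd_pow _ (by omega)).trans hd
  have h2 : ∑ i, k i * E (m k) i = ∑ i, k i * E (S.sup m + 1) i -
      ∑ i, k i * (E (S.sup m + 1) i - E (m k) i) := by
    rw [← sum_sub_distrib]
    exact sum_congr rfl fun i _ => by ring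
  rw [h2]
  exact dvd_sub h1 (dvd_sum fun i _ => Dvd.dvd.mul_left (hcong (m k) _ (by omega) i) _)

theorem tKro (hGeo : S_Geo) (hAvg : S_Avg) : S_Kro := by
  intro ι _ _ p hp E x hE hx δ hδ w0
  obtain ⟨M, hM⟩ := exists_nat_gt ((Fintype.card ι : ℝ) / (4 * δ ^ 2))
  set N := M + 1 with hNd
  have hN : 0 < N := Nat.succ_pos M
  have hN' : (0 : ℝ) < N := by exact_mod_cast hN
  have hNc : (Fintype.card ι : ℝ) * (1 / (4 * N * δ ^ 2)) < 1 := by
    have h1 : (M : ℝ) < N := by rw [hNd]; push_cast; linarith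
    have h2 := hM.trans h1
    rw [div_lt_iff₀ (by positivity)] at h2
    rw [mul_one_div, div_lt_one (by positivity)]
    linarith
  obtain ⟨n, hn⟩ := Kro_exp p E hE N
  set R : (ι → ℤ) → Prop := fun k => ∀ n, (p : ℤ) ^ (n + 1) ∣ ∑ i, k i * E n i with hRd
  have hA := hAvg ι p n N w0 (E n) x R hp hN (fun k hk => ⟨hk n, hx k hk⟩) hn
  by_contra hcon
  push Not at hcon
  have hbad : ∀ u : ℕ, ∃ i, δ ≤ dz ((E n i : ℝ) * (w0 + p * u) / p ^ (n + 1) - x i) := by
    intro u
    obtain ⟨i, hi⟩ := hcon n (w0 + p * u) (by rw [add_sub_cancel_left]; exact dvd_mul_right _ _)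
    refine ⟨i, ?_⟩
    push_cast at hi
    exact hi
  -- the product for one u
  set C := 1 / (4 * N * δ ^ 2) with hC
  have hC0 : 0 < C := by positivity
  have hu : ∀ u : ℕ, ∏ i ∈ univ, Fj N ((E n i : ℝ) * (w0 + p * u) / p ^ (n + 1) - x i) ≤
      ∑ i, C * ∏ j ∈ univ.erase i, Fj N ((E n j : ℝ) * (w0 + p * u) / p ^ (n + 1) - x j) := by
    intro u
    obtain ⟨i, hi⟩ := hbad u
    have h1 := hGeo N _ δ hN hδ hi
    rw [← mul_prod_erase univ _ (mem_univ i)]
    have h2 : ∀ j, 0 ≤ ∏ j ∈ univ.erase j, Fj N ((E n j : ℝ) * (w0 + p * u) / p ^ (n + 1) - x j) :=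
      fun j => prod_nonneg fun _ _ => Kro_Fj0 _ _
    refine (mul_le_mul_of_nonneg_right h1 (h2 i)).trans ?_
    exact single_le_sum (f := fun i => C * ∏ j ∈ univ.erase i,
      Fj N ((E n j : ℝ) * (w0 + p * u) / p ^ (n + 1) - x j))
      (fun j _ => mul_nonneg hC0.le (h2 j)) (mem_univ i)
  have h1 : ∑ u ∈ range (p ^ n), ∏ i ∈ univ, Fj N ((E n i : ℝ) * (w0 + p * u) / p ^ (n + 1) - x i) ≤
      ∑ i, C * ∑ u ∈ range (p ^ n),
        ∏ j ∈ univ.erase i, Fj N ((E n j : ℝ) * (w0 + p * u) / p ^ (n + 1) - x j) := by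
    refine (sum_le_sum fun u _ => hu u).trans (le_of_eq ?_)
    rw [sum_comm]
    exact sum_congr rfl fun i _ => by rw [mul_sum]
  rw [hA univ, sum_congr rfl fun i _ => by rw [hA (univ.erase i)]] at h1
  have hp0 : (0 : ℝ) < (p : ℝ) ^ n := pow_pos (by exact_mod_cast hp.pos) n
  have hcnt1 : (1 : ℝ) ≤ cnt univ N R := by
    have h2 : 0 < cnt (univ : Finset ι) N R := by
      classical
      unfold cnt
      refine card_pos.2 ⟨(fun _ => 0, fun _ => 0), mem_filter.2 ⟨mem_product.2 ⟨?_, ?_⟩, ?_⟩⟩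
      · unfold PJ
        rw [Fintype.mem_piFinset]
        intro j
        rw [if_pos (mem_univ j)]
        exact mem_range.2 hN
      · unfold PJ
        rw [Fintype.mem_piFinset]
        intro j
        rw [if_pos (mem_univ j)]
        exact mem_range.2 hN
      · rw [hRd]
        intro n
        simp
    exact_mod_cast h2
  have h2 : ∀ i : ι, C * ((p : ℝ) ^ n * (cnt (univ.erase i) N R : ℝ) / (N : ℝ) ^ (univ.erase i).card) ≤
      C * ((p : ℝ) ^ n * (cnt univ N R : ℝ) / (N : ℝ) ^ (univ : Finset ι).card) := by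
    intro i
    refine mul_le_mul_of_nonneg_left ?_ hC0.le
    have h3 : (univ : Finset ι).card = (univ.erase i).card + 1 := by
      rw [card_erase_of_mem (mem_univ i)]
      have : 0 < (univ : Finset ι).card := card_pos.2 ⟨i, mem_univ i⟩
      omega
    have h4 : (cnt (univ.erase i) N R : ℝ) * N ≤ cnt univ N R := by exact_mod_cast Kro_cnt i N R
    rw [h3, pow_succ, div_le_div_iff₀ (by positivity) (by positivity)]
    have h5 : 0 < (p : ℝ) ^ n * (N : ℝ) ^ (univ.erase i).card := by positivity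
    nlinarith [mul_le_mul_of_nonneg_left h4 h5.le]
  have h3 := h1.trans (sum_le_sum fun i _ => h2 i)
  rw [sum_const, nsmul_eq_mul, card_univ, ← mul_assoc] at h3
  have h4 : 0 < (p : ℝ) ^ n * (cnt univ N R : ℝ) / (N : ℝ) ^ Fintype.card ι := by positivity
  nlinarith

end Pool.Agent.FW.C
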