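import Pool.Agent.Lib.FW.SpecC

/-! FW, Part C: non-vanishing of some `S(n, w)`. -/

namespace Pool.Agent.FW.C

open Finset

private theorem exists_s {ι : Type} [Finite ι] (a b : ι → ℝ) (hb : ∀ i, b i ≠ 0) (N : ℝ)
    (hN : N ≠ 0) : ∃ s : ℝ, ∀ (i : ι) (m : ℤ), N * (a i + s * b i) ≠ m := by
  by_contra hcon
  push Not at hcon
  have hsub : (Set.univ : Set ℝ) ⊆ ⋃ i, Set.range (fun m : ℤ => ((m : ℝ) / N - a i) / b i) := by
    intro s _
    obtain ⟨i, m, h⟩ := hcon s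
    refine Set.mem_iUnion.2 ⟨i, m, ?_⟩
    have hbi := hb i
    simp only
    rw [div_eq_iff hbi, ← h]
    field_simp
    ring
  exact Set.not_countable_univ
    (Set.Countable.mono hsub (Set.countable_iUnion fun i => Set.countable_range _))

private theorem exists_w0 (p f : ℕ) [Fact p.Prime] (hpf : ¬ p ∣ f) :
    ∃ w0 : ℤ, (p : ℤ) ∣ f * w0 - 1 := by
  have hf : (f : ZMod p) ≠ 0 := by
    rw [Ne, ZMod.natCast_eq_zero_iff]; exact hpf
  refine ⟨(((f : ZMod p)⁻¹).val : ℤ), ?_⟩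
  rw [← ZMod.intCast_zmod_eq_zero_iff_dvd] 
  push_cast
  rw [ZMod.natCast_zmod_val, mul_inv_cancel₀ hf, sub_self]

private theorem approx (hKro : S_Kro) (hTeiB : S_TeiB) (p f : ℕ) [Fact p.Prime] (hpf : ¬ p ∣ f)
    (ζ : (ZMod p)ˣ → ℂ) (h1 : ζ 1 = 1) (hn : ∀ η, ‖ζ η‖ = 1)
    (hrel : ∀ k : (ZMod p)ˣ → ℤ, (∀ n, (p : ℤ) ^ (n + 1) ∣ ∑ η, k η * (tei p n η : ℤ)) →
      ∑ η, (k η : ℂ) * ζ η = 0) (t s θ ε : ℝ) (hε : 0 < ε) (hθ : |θ| ≤ ε) :
    ∃ (n : ℕ) (w : ℤ), (p : ℤ) ∣ f * w - 1 ∧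
      (∃ m : ℤ, |(w : ℝ) / p ^ (n + 1) - m - (t + θ)| < ε / 2) ∧
      ∀ η, ∃ m : ℤ, |(tei p n η : ℝ) * w / p ^ (n + 1) - m - (t * (ζ η).re + s * (ζ η).im)| < 2 * ε := by
  classical
  have hp : p.Prime := Fact.out
  obtain ⟨w0, hw0⟩ := exists_w0 p f hpf
  obtain ⟨hT1, hT2, hT3⟩ := hTeiB p
  obtain ⟨n, w, hw, hd⟩ := hKro ((ZMod p)ˣ) p hp (fun n η => (tei p n η : ℤ))
    (fun η => (t + θ) * (ζ η).re + s * (ζ η).im) hT1 (by
      intro k hk
      have h := hrel k hk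
      have hre : ∑ η, (k η : ℝ) * (ζ η).re = 0 := by
        have := congrArg Complex.re h
        simpa [Complex.re_sum] using this
      have him : ∑ η, (k η : ℝ) * (ζ η).im = 0 := by
        have := congrArg Complex.im h
        simpa [Complex.im_sum] using this
      refine ⟨0, ?_⟩
      have : ∑ η, (k η : ℝ) * ((t + θ) * (ζ η).re + s * (ζ η).im) =
          (t + θ) * ∑ η, (k η : ℝ) * (ζ η).re + s * ∑ η, (k η : ℝ) * (ζ η).im := by
        rw [mul_sum, mul_sum, ← sum_add_distrib]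
        refine sum_congr rfl fun η _ => ?_
        ring
      rw [this, hre, him]
      simp) (ε / 2) (by positivity) w0
  refine ⟨n, w, ?_, ?_, ?_⟩
  · have h2 : (f : ℤ) * w - 1 = f * (w - w0) + (f * w0 - 1) := by ring
    rw [h2]
    exact dvd_add (Dvd.dvd.mul_left hw _) hw0
  · have h := hd 1
    simp only [dz, hT2 n, h1, Nat.cast_one, Int.cast_one, one_mul, Complex.one_re, Complex.one_im,
      mul_one, mul_zero, add_zero] at h
    refine ⟨round ((w : ℝ) / p ^ (n + 1) - (t + θ)), ?_⟩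
    have e : (w : ℝ) / p ^ (n + 1) - (round ((w : ℝ) / p ^ (n + 1) - (t + θ)) : ℤ) - (t + θ) =
      (w : ℝ) / p ^ (n + 1) - (t + θ) - (round ((w : ℝ) / p ^ (n + 1) - (t + θ)) : ℤ) := by ring
    rw [e]
    exact h
  · intro η
    have h := hd η
    simp only [dz, Int.cast_natCast] at h
    set z : ℝ := (tei p n η : ℝ) * w / p ^ (n + 1) - ((t + θ) * (ζ η).re + s * (ζ η).im) with hz
    refine ⟨round z, ?_⟩
    have e : (tei p n η : ℝ) * w / p ^ (n + 1) - (round z : ℤ) - (t * (ζ η).re + s * (ζ η).im) =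
      (z - (round z : ℤ)) + θ * (ζ η).re := by rw [hz]; ring
    rw [e]
    have hre : |(ζ η).re| ≤ 1 := by
      have := Complex.abs_re_le_norm (ζ η)
      rwa [hn η] at this
    have h3 : |θ * (ζ η).re| ≤ ε := by
      rw [abs_mul]
      calc |θ| * |(ζ η).re| ≤ ε * 1 := mul_le_mul hθ hre (abs_nonneg _) hε.le
        _ = ε := mul_one _
    calc |z - (round z : ℤ) + θ * (ζ η).re| ≤ |z - (round z : ℤ)| + |θ * (ζ η).re| := abs_add_le _ _
      _ < ε / 2 + ε := by linarith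
      _ ≤ 2 * ε := by linarith

private theorem noint (N y t : ℝ) (M : ℤ) (ht : N * t = M) (h0 : 0 < |N * (y - t)|)
    (h1 : |N * (y - t)| < 1) (m : ℤ) : N * y ≠ m := by
  intro h
  have e : N * (y - t) = ((m - M : ℤ) : ℝ) := by
    push_cast
    rw [mul_sub, h, ht]
  rw [e] at h0 h1
  rw [← Int.cast_abs] at h0 h1
  have h0' : 0 < |m - M| := by exact_mod_cast h0
  have h1' : |m - M| < 1 := by exact_mod_cast h1
  omega

theorem tMain (hKro : S_Kro) (hTeiB : S_TeiB) (hEmb : S_Emb) (hHH : S_HH) (hTwo : S_Two) :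
    S_Main := by
  classical
  intro p f _ _ hp2 hpf c hc hcf κ _ _ χ hχ
  have hp : p.Prime := Fact.out
  have hf0 : 0 < f := Nat.pos_of_ne_zero (NeZero.ne f)
  have hfR : (0 : ℝ) < f := by exact_mod_cast hf0
  have hcR : (0 : ℝ) < c := by exact_mod_cast (by omega : 0 < c)
  obtain ⟨ζ, hz1, _, hzn, hzi, hrel⟩ := hEmb p hp2
  obtain ⟨ha, hb, _, ρ0, hρ0, hd⟩ := hHH f c hc hcf κ (chf χ)
  set t0 : ℝ := 1 / c - ((1 : ZMod f).val : ℝ) / f with ht0
  obtain ⟨s, hs⟩ := exists_s (ι := {η : (ZMod p)ˣ // η ≠ 1 ∧ η ≠ -1}) (fun η => t0 * (ζ η).re)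
    (fun η => (ζ η).im) (fun η => hzi η.1 η.2.1 η.2.2) ((f : ℝ) * c) (by positivity)
  have hρ : ∀ η : {η : (ZMod p)ˣ // η ≠ 1 ∧ η ≠ -1}, ∃ ρ : ℝ, 0 < ρ ∧ ∀ y' : ℝ,
      |y' - (t0 * (ζ η).re + s * (ζ η).im)| < ρ →
      hh f c (chf χ) y' = hh f c (chf χ) (t0 * (ζ η).re + s * (ζ η).im) :=
    fun η => hb _ (fun m => hs η m)
  choose ρ hρpos hρc using hρ
  obtain ⟨ρm, hρm, hρle⟩ : ∃ r : ℝ, 0 < r ∧ ∀ η, r ≤ ρ η := by
    rcases isEmpty_or_nonempty {η : (ZMod p)ˣ // η ≠ 1 ∧ η ≠ -1} with he | hne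
    · exact ⟨1, one_pos, fun η => (he.false η).elim⟩
    · obtain ⟨x, hx⟩ := Finite.exists_min ρ
      exact ⟨ρ x, hρpos x, hx⟩
  set ε : ℝ := min (min ρ0 ρm) (1 / ((f : ℝ) * c)) / 4 with hεd
  have hfc : (0 : ℝ) < (f : ℝ) * c := by positivity
  have hmin : 0 < min (min ρ0 ρm) (1 / ((f : ℝ) * c)) :=
    lt_min (lt_min hρ0 hρm) (by positivity)
  have hε : 0 < ε := by rw [hεd]; positivity
  have hε1 : 2 * ε < ρ0 := by
    have : min (min ρ0 ρm) (1 / ((f : ℝ) * c)) ≤ ρ0 := (min_le_left _ _).trans (min_le_left _ _)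
    rw [hεd]; linarith
  have hε2 : 2 * ε < ρm := by
    have : min (min ρ0 ρm) (1 / ((f : ℝ) * c)) ≤ ρm := (min_le_left _ _).trans (min_le_right _ _)
    rw [hεd]; linarith
  have hε3 : (f : ℝ) * c * (2 * ε) < 1 := by
    have h1 : min (min ρ0 ρm) (1 / ((f : ℝ) * c)) ≤ 1 / ((f : ℝ) * c) := min_le_right _ _
    have h2 : 2 * ε < 1 / ((f : ℝ) * c) := by rw [hεd]; linarith
    calc (f : ℝ) * c * (2 * ε) < (f : ℝ) * c * (1 / ((f : ℝ) * c)) := by
          exact mul_lt_mul_of_pos_left h2 hfc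
      _ = 1 := by field_simp
  have ht0i : (f : ℝ) * c * t0 = ((f - c * (1 : ZMod f).val : ℤ) : ℝ) := by
    rw [ht0]
    push_cast
    field_simp
  -- the common statement for the two signs
  have key : ∀ θ : ℝ, |θ| ≤ ε → ε ≤ |θ| → ∃ (n : ℕ) (w : ℤ) (y : ℝ), (p : ℤ) ∣ f * w - 1 ∧
      |y - (t0 + θ)| < ε / 2 ∧
      SS p f c χ n w = 2 * hh f c (chf χ) y +
        ∑ η ∈ (univ : Finset (ZMod p)ˣ).filter (fun η => η ≠ 1 ∧ η ≠ -1),
          (((chp χ η)⁻¹ : κˣ) : κ) * hh f c (chf χ) (t0 * (ζ η).re + s * (ζ η).im) := by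
    intro θ hθ hθ'
    obtain ⟨n, w, hw, ⟨m, hm⟩, hη⟩ := approx hKro hTeiB p f hpf ζ hz1 hzn hrel t0 s θ ε hε hθ
    refine ⟨n, w, (w : ℝ) / p ^ (n + 1) - m, hw, hm, ?_⟩
    have hni : ∀ k : ℤ, (f : ℝ) * c * ((w : ℝ) / p ^ (n + 1)) ≠ k := by
      intro k hk
      have habs : |(w : ℝ) / p ^ (n + 1) - m - (t0 + θ)| < ε / 2 := hm
      have hlow : ε / 2 < |(w : ℝ) / p ^ (n + 1) - m - t0| := by
        have h1 : |θ| ≤ |(w : ℝ) / p ^ (n + 1) - m - t0| +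
            |(w : ℝ) / p ^ (n + 1) - m - (t0 + θ)| := by
          have e : θ = ((w : ℝ) / p ^ (n + 1) - m - t0) -
            ((w : ℝ) / p ^ (n + 1) - m - (t0 + θ)) := by ring
          calc |θ| = |((w : ℝ) / p ^ (n + 1) - m - t0) -
            ((w : ℝ) / p ^ (n + 1) - m - (t0 + θ))| := by rw [← e]
            _ ≤ _ := abs_sub _ _
        linarith
      have hupp : |(w : ℝ) / p ^ (n + 1) - m - t0| < 2 * ε := by
        have e : (w : ℝ) / p ^ (n + 1) - m - t0 =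
          ((w : ℝ) / p ^ (n + 1) - m - (t0 + θ)) + θ := by ring
        rw [e]
        calc |((w : ℝ) / p ^ (n + 1) - m - (t0 + θ)) + θ| ≤
            |(w : ℝ) / p ^ (n + 1) - m - (t0 + θ)| + |θ| := abs_add_le _ _
          _ < 2 * ε := by linarith
      refine noint ((f : ℝ) * c) ((w : ℝ) / p ^ (n + 1) - m) t0 _ ht0i ?_ ?_ (k - f * c * m) ?_
      · rw [abs_mul, abs_of_pos hfc]
        have : 0 < |(w : ℝ) / p ^ (n + 1) - m - t0| := by linarith [half_pos hε]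
        positivity
      · rw [abs_mul, abs_of_pos hfc]
        calc (f : ℝ) * c * |(w : ℝ) / p ^ (n + 1) - m - t0| ≤ (f : ℝ) * c * (2 * ε) :=
              mul_le_mul_of_nonneg_left hupp.le hfc.le
          _ < 1 := hε3
      · push_cast
        rw [mul_sub, hk]
    rw [hTwo p f hp2 c hc hcf κ χ hχ n w hni]
    congr 1
    · have := ha ((w : ℝ) / p ^ (n + 1) - m) m
      rw [sub_add_cancel] at this
      rw [this]
    · refine sum_congr rfl fun η hηm => ?_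
      rw [mem_filter] at hηm
      obtain ⟨m', hm'⟩ := hη η
      have h1 := hρc ⟨η, hηm.2⟩ ((tei p n η : ℝ) * w / p ^ (n + 1) - m')
        (lt_of_lt_of_le (hm'.trans hε2) (hρle _))
      have h2 := ha ((tei p n η : ℝ) * w / p ^ (n + 1) - m') m'
      rw [sub_add_cancel] at h2
      rw [h2, h1]
  obtain ⟨n1, w1, y1, hw1, hy1, hS1⟩ := key ε (by rw [abs_of_pos hε]) (by rw [abs_of_pos hε])
  obtain ⟨n2, w2, y2, hw2, hy2, hS2⟩ := key (-ε) (by rw [abs_neg, abs_of_pos hε])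
    (by rw [abs_neg, abs_of_pos hε])
  by_contra hcon
  push Not at hcon
  have e1 := hcon n1 w1 hw1
  have e2 := hcon n2 w2 hw2
  rw [abs_lt] at hy1 hy2
  have hjump : hh f c (chf χ) y1 - hh f c (chf χ) y2 = 2 := by
    refine hd y1 y2 ?_ ?_ ?_ ?_ <;> linarith [hy1.1, hy1.2, hy2.1, hy2.2]
  have h4 : (4 : κ) = 0 := by
    have h5 : (2 : κ) * (hh f c (chf χ) y1 - hh f c (chf χ) y2) = 0 := by
      have := congrArg₂ (· - ·) (hS1.symm.trans e1) (hS2.symm.trans e2)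
      simp only [sub_zero] at this
      rw [← this]
      ring
    rw [hjump] at h5
    calc (4 : κ) = 2 * 2 := by norm_num
      _ = 0 := h5
  have h2 : (2 : κ) = 0 := by
    have : (2 : κ) * 2 = 0 := by rw [← h4]; norm_num
    exact (mul_self_eq_zero.1 this)
  have h3 : ((2 : ℕ) : κ) = 0 := by exact_mod_cast h2
  rw [CharP.cast_eq_zero_iff κ p 2] at h3
  exact hp2 ((Nat.prime_dvd_prime_iff_eq hp Nat.prime_two).1 h3)

end Pool.Agent.FW.C
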