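import Pool.Agent.Lib.FW.SpecC

/-! The powers of `1 + p` (FW, Part C). -/

noncomputable section

namespace Pool.Agent.FW.C

open Finset

private theorem one_add_pow' (x : ℤ) (t : ℕ) : ∃ r : ℤ, (1 + x) ^ t = 1 + t * x + x ^ 2 * r := by
  induction t with
  | zero => exact ⟨0, by simp⟩
  | succ t ih =>
    obtain ⟨r, hr⟩ := ih
    refine ⟨t + r + x * r, ?_⟩
    rw [pow_succ, hr]
    push_cast
    ring

private theorem unitPart (p : ℕ) [hp : Fact p.Prime] (hp2 : p ≠ 2) (n : ℕ) :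
    ∃ w : ℤ, (1 + (p : ℤ)) ^ p ^ n = 1 + (p : ℤ) ^ (n + 1) * w ∧ ¬ (p : ℤ) ∣ w := by
  have hpi : Prime (p : ℤ) := Nat.prime_iff_prime_int.1 hp.out
  have h1 : ¬ (p : ℤ) ∣ 1 + (p : ℤ) := by
    intro h
    have h2 : (p : ℤ) ∣ 1 := (dvd_add_left (dvd_refl _)).1 h
    exact hpi.not_isUnit (isUnit_of_dvd_one h2)
  have h2 := Int.emultiplicity_pow_sub_pow hp.out (hp.out.odd_of_ne_two hp2)
    (x := 1 + (p : ℤ)) (y := 1) (by rw [add_sub_cancel_left]) h1 (p ^ n)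
  rw [add_sub_cancel_left, one_pow, emultiplicity_pow_self_of_prime hp.out.prime,
    (FiniteMultiplicity.of_prime_left hpi hpi.ne_zero).emultiplicity_self] at h2
  have h3 : emultiplicity (p : ℤ) ((1 + (p : ℤ)) ^ p ^ n - 1) = ((n + 1 : ℕ) : ℕ∞) := by
    rw [h2]
    push_cast
    exact add_comm _ _
  obtain ⟨⟨w, hw⟩, h5⟩ := emultiplicity_eq_coe.1 h3
  refine ⟨w, by linarith, fun h => h5 ?_⟩
  obtain ⟨v, rfl⟩ := h
  exact ⟨v, by rw [hw]; ring⟩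

private theorem findT (p : ℕ) [hp : Fact p.Prime] (a u : ℤ) (hu : ¬ (p : ℤ) ∣ u) :
    ∃ t : ℕ, (p : ℤ) ∣ a + t * u := by
  have hu' : ((u : ℤ) : ZMod p) ≠ 0 := fun h => hu ((ZMod.intCast_zmod_eq_zero_iff_dvd u p).1 h)
  refine ⟨(-(a : ZMod p) * ((u : ℤ) : ZMod p)⁻¹).val, ?_⟩
  rw [← ZMod.intCast_zmod_eq_zero_iff_dvd]
  push_cast
  rw [ZMod.natCast_zmod_val, mul_assoc, inv_mul_cancel₀ hu']
  ring

theorem tPow : S_Pow := by
  intro p hp hp2 n z hz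
  have hpi : Prime (p : ℤ) := Nat.prime_iff_prime_int.1 hp.out
  have hz' : ¬ (p : ℤ) ∣ z := by
    intro h
    have h2 : (p : ℤ) ∣ 1 := by
      have := dvd_sub h hz
      rwa [sub_sub_cancel] at this
    exact hpi.not_isUnit (isUnit_of_dvd_one h2)
  induction n with
  | zero =>
    refine ⟨0, ?_⟩
    rw [pow_zero, zero_add, pow_one]
    rwa [← neg_sub, dvd_neg] at hz
  | succ n ih =>
    obtain ⟨i, a, ha⟩ := ih
    obtain ⟨w, hw, hw'⟩ := unitPart p hp2 n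
    obtain ⟨t, d, hd⟩ := findT p a (w * z) (fun h => (hpi.dvd_or_dvd h).elim hw' hz')
    obtain ⟨r, hr⟩ := one_add_pow' ((p : ℤ) ^ (n + 1) * w) t
    refine ⟨i + p ^ n * t, d + z * p ^ n * w ^ 2 * r + a * t * p ^ n * w +
      a * p ^ (2 * n + 1) * w ^ 2 * r, ?_⟩
    have ha' : (1 + (p : ℤ)) ^ i = z + p ^ (n + 1) * a := by linarith
    rw [pow_add, pow_mul, hw, hr, ha']
    linear_combination (p : ℤ) ^ (n + 1) * hd

end Pool.Agent.FW.C
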