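import Pool.Agent.Lib.FW.SpecC

/-! Teichmueller representatives in `ℤ_[p]` (FW, Part C). -/

noncomputable section

namespace Pool.Agent.FW.C

open Finset

private theorem val_coprime (p : ℕ) [hp : Fact p.Prime] (η : (ZMod p)ˣ) :
    p.Coprime (η : ZMod p).val := by
  rw [hp.out.coprime_iff_not_dvd, ← ZMod.natCast_eq_zero_iff, ZMod.natCast_zmod_val]
  exact η.ne_zero

private theorem exT (p : ℕ) [hp : Fact p.Prime] (η : (ZMod p)ˣ) :
    ∃ T : ℤ_[p], T ^ (p - 1) = 1 ∧ (p : ℤ_[p]) ∣ T - ((η : ZMod p).val : ℤ_[p]) := by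
  have hc := val_coprime p η
  have hp1 : 1 < p := hp.out.one_lt
  set a : ℤ_[p] := ((η : ZMod p).val : ℤ_[p]) with ha
  let F : Polynomial ℤ_[p] := Polynomial.X ^ (p - 1) - 1
  have h1 : ‖Polynomial.aeval a F‖ < 1 := by
    have e1 : Polynomial.aeval a F = (((((η : ZMod p).val : ℤ) ^ (p - 1) - 1 : ℤ)) : ℤ_[p]) := by
      simp [F, ha]
    rw [e1, PadicInt.norm_int_lt_one_iff_dvd, ← ZMod.intCast_zmod_eq_zero_iff_dvd]
    push_cast
    rw [ZMod.natCast_zmod_val, ZMod.pow_card_sub_one_eq_one η.ne_zero, sub_self]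
  have h2 : ‖Polynomial.aeval a (Polynomial.derivative F)‖ = 1 := by
    have e1 : Polynomial.aeval a (Polynomial.derivative F) =
        (((p - 1) * (η : ZMod p).val ^ (p - 1 - 1) : ℕ) : ℤ_[p]) := by
      simp only [F, Polynomial.derivative_sub, Polynomial.derivative_X_pow,
        Polynomial.derivative_one, sub_zero, map_mul, map_pow, Polynomial.aeval_X,
        Nat.cast_mul, Nat.cast_pow, ← ha, map_natCast]
    rw [e1, PadicInt.norm_natCast_eq_one_iff]
    refine Nat.Coprime.mul_right ?_ (hc.pow_right _)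
    rw [hp.out.coprime_iff_not_dvd]
    intro h
    have := Nat.le_of_dvd (by omega) h
    omega
  obtain ⟨T, hT1, hT2, _, _⟩ := hensels_lemma (F := F) (a := a) (by rw [h2, one_pow]; exact h1)
  refine ⟨T, ?_, ?_⟩
  · have e1 : Polynomial.aeval T F = T ^ (p - 1) - 1 := by simp [F]
    rw [e1] at hT1
    exact sub_eq_zero.1 hT1
  · rw [h2] at hT2
    exact (PadicInt.norm_lt_one_iff_dvd _).1 hT2

theorem tTei : S_Tei := by
  intro p hp
  choose T hT1 hT2 using exT p
  refine ⟨T, hT1, fun η n => ?_⟩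
  have h1 : T η ^ p = T η := by
    have e : p = p - 1 + 1 := (Nat.sub_add_cancel hp.out.one_lt.le).symm
    calc T η ^ p = T η ^ (p - 1 + 1) := congrArg (fun k : ℕ => T η ^ k) e
      _ = T η := by rw [pow_succ, hT1, one_mul]
  have h2 : ∀ n : ℕ, T η ^ p ^ n = T η := by
    intro n
    induction n with
    | zero => rw [pow_zero, pow_one]
    | succ n ih => rw [pow_succ, pow_mul, ih, h1]
  have h3 := dvd_sub_pow_of_dvd_sub (hT2 η) n
  rw [h2] at h3
  unfold tei
  rw [Nat.cast_pow]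
  exact h3

end Pool.Agent.FW.C
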