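import Pool.Agent.Lib.FW.SpecC

/-! FW, Part C: elementary facts on `tei`. -/

namespace Pool.Agent.FW.C

open Finset

private theorem ztei (p n : ℕ) (η : (ZMod p)ˣ) :
    (tei p n η : ℤ) = (((η : ZMod p).val : ℕ) : ℤ) ^ p ^ n := by
  unfold tei
  push_cast
  rfl

theorem tTeiB : S_TeiB := by
  intro p hp
  have hp1 : 1 < p := hp.out.one_lt
  refine ⟨fun n η => ?_, fun n => ?_, fun hp2 n => ?_⟩
  · have h1 : (p : ℤ) ∣ (((η : ZMod p).val : ℕ) : ℤ) ^ p - (((η : ZMod p).val : ℕ) : ℤ) := by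
      rw [← ZMod.intCast_zmod_eq_zero_iff_dvd]
      push_cast
      rw [ZMod.natCast_zmod_val, ZMod.pow_card, sub_self]
    have h2 := dvd_sub_pow_of_dvd_sub h1 n
    rw [ztei, ztei]
    rw [← pow_mul, ← pow_succ'] at h2
    exact_mod_cast h2
  · unfold tei
    rw [Units.val_one, ZMod.val_one, one_pow]
  · have h1 : (p : ℤ) ∣ ((((-1 : (ZMod p)ˣ) : ZMod p).val : ℕ) : ℤ) - (-1) := by
      rw [← ZMod.intCast_zmod_eq_zero_iff_dvd]
      push_cast
      rw [ZMod.natCast_zmod_val, sub_self]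
    have h2 := dvd_sub_pow_of_dvd_sub h1 n
    have h3 : Odd (p ^ n) := (hp.out.odd_of_ne_two hp2).pow
    rw [h3.neg_one_pow, sub_neg_eq_add] at h2
    rw [ztei]
    exact_mod_cast h2

end Pool.Agent.FW.C
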