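import Pool.Agent.Lib.FW.SpecC

/-! FW, Part C: splitting off the terms `1` and `-1`. -/

namespace Pool.Agent.FW.C

open Finset

private theorem one_ne (p : ℕ) [hp : Fact p.Prime] (hp2 : p ≠ 2) : (1 : (ZMod p)ˣ) ≠ -1 := by
  intro h
  have h2 : 2 < p := lt_of_le_of_ne hp.out.two_le (Ne.symm hp2)
  have : Fact (2 < p) := ⟨h2⟩
  have h3 : ((1 : (ZMod p)ˣ) : ZMod p) = ((-1 : (ZMod p)ˣ) : ZMod p) := by rw [← h]
  rw [Units.val_one, Units.val_neg, Units.val_one] at h3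
  exact ZMod.neg_one_ne_one h3.symm

private theorem split (p : ℕ) [Fact p.Prime] (hp2 : p ≠ 2) {κ : Type} [Field κ]
    (t : (ZMod p)ˣ → κ) : ∑ η, t η = (t 1 + t (-1)) +
      ∑ η ∈ (univ : Finset (ZMod p)ˣ).filter (fun η => η ≠ 1 ∧ η ≠ -1), t η := by
  rw [← Finset.sum_filter_add_sum_filter_not univ (fun η : (ZMod p)ˣ => η ≠ 1 ∧ η ≠ -1) t,
    add_comm]
  congr 1
  have h : (univ : Finset (ZMod p)ˣ).filter (fun η => ¬ (η ≠ 1 ∧ η ≠ -1)) = {1, -1} := by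
    ext η
    simp only [mem_filter, mem_univ, true_and, mem_insert, mem_singleton]
    tauto
  rw [h, Finset.sum_pair (one_ne p hp2)]

theorem tTwo (hTeiB : S_TeiB) (hHH : S_HH) : S_Two := by
  intro p f _ _ hp2 c hc hcf κ _ χ hχ n w hw
  obtain ⟨-, hB2, hB3⟩ := hTeiB p
  obtain ⟨ha, -, hcc, -⟩ := hHH f c hc hcf κ (chf χ)
  unfold SS
  rw [split p hp2]
  congr 1
  have e1 : ((tei p n 1 : ℕ) : ℝ) * w / p ^ (n + 1) = (w : ℝ) / p ^ (n + 1) := by
    rw [hB2 n]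
    push_cast
    rw [one_mul]
  have hp0 : ((p : ℝ) ^ (n + 1)) ≠ 0 := by
    have : (p : ℝ) ≠ 0 := by
      have := (Fact.out : p.Prime).pos
      positivity
    positivity
  obtain ⟨k, hk⟩ := hB3 hp2 n
  have hk' : ((tei p n (-1) : ℕ) : ℝ) = (p : ℝ) ^ (n + 1) * k - 1 := by
    have h1 : ((tei p n (-1) : ℤ) : ℝ) + 1 = (p : ℝ) ^ (n + 1) * k := by exact_mod_cast hk
    have h2 : (((tei p n (-1) : ℕ) : ℤ) : ℝ) = ((tei p n (-1) : ℕ) : ℝ) := by push_cast; rfl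
    linarith
  have e2 : ((tei p n (-1) : ℕ) : ℝ) * w / p ^ (n + 1) =
      -((w : ℝ) / p ^ (n + 1)) + ((k * w : ℤ) : ℝ) := by
    rw [hk']
    push_cast
    field_simp
    ring
  rw [e1, e2, ha, hcc _ hw]
  have huv : ((chf χ (-1) : κˣ) : κ) * ((chp χ (-1) : κˣ) : κ) = -1 := by
    have h1 : chf χ (-1) * chp χ (-1) = -1 := by
      unfold chf chp
      rw [MonoidHom.comp_apply, MonoidHom.comp_apply, ← map_mul]
      rw [← hχ]
      congr 1
      ext <;> simp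
    have h2 := congrArg (fun z : κˣ => (z : κ)) h1
    simpa using h2
  have hvv : ((chp χ (-1) : κˣ) : κ) * ((chp χ (-1) : κˣ) : κ) = 1 := by
    have h1 : chp χ (-1) * chp χ (-1) = 1 := by
      rw [← map_mul, neg_mul_neg, one_mul, map_one]
    have h2 := congrArg (fun z : κˣ => (z : κ)) h1
    simpa using h2
  have hv0 : ((chp χ (-1) : κˣ) : κ) ≠ 0 := Units.ne_zero _
  have hvi : ((((chp χ (-1))⁻¹ : κˣ)) : κ) = ((chp χ (-1) : κˣ) : κ) := by
    rw [Units.val_inv_eq_inv_val]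
    exact inv_eq_of_mul_eq_one_right hvv
  rw [map_one, hvi]
  have e3 : ((chp χ (-1) : κˣ) : κ) * (-((chf χ (-1) : κˣ) : κ) *
      hh f c (chf χ) ((w : ℝ) / p ^ (n + 1))) = hh f c (chf χ) ((w : ℝ) / p ^ (n + 1)) := by
    have : ((chp χ (-1) : κˣ) : κ) * (-((chf χ (-1) : κˣ) : κ)) = 1 := by
      linear_combination (-1 : κ) * huv
    rw [← mul_assoc, this, one_mul]
  rw [e3]
  rw [inv_one, Units.val_one, one_mul, two_mul]

end Pool.Agent.FW.C
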