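import Pool.Agent.Lib.FW.SpecC

/-!
# FW, Part C: reduction of the sum of `S_NV` to `S(n, w)`
-/

noncomputable section

namespace Pool.Agent.FW.C

open Finset

private theorem red_cop {p f : ℕ} [Fact p.Prime] (hpf : ¬ p ∣ f) (n : ℕ) :
    f.Coprime (p ^ (n + 1)) :=
  Nat.Coprime.pow_right _ (((Nat.Prime.coprime_iff_not_dvd Fact.out).2 hpf).symm)

/-- the properties of `ix` -/
private theorem red_ix {p f : ℕ} [Fact p.Prime] [NeZero f] (hpf : ¬ p ∣ f) (n : ℕ) (b : (ZMod f)ˣ)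
    (η : (ZMod p)ˣ) (i : ℕ) :
    ix p f n b η i < f * p ^ (n + 1) ∧
      (((ix p f n b η i : ℕ) : ℤ) : ZMod f) = (b : ZMod f) ∧
      ((p : ℤ) ^ (n + 1)) ∣ (ix p f n b η i : ℤ) - (tei p n η : ℤ) * (1 + p) ^ i := by
  have h := red_cop hpf n
  have hp : p ^ (n + 1) ≠ 0 := pow_ne_zero _ (Nat.Prime.ne_zero Fact.out)
  have hix : ix p f n b η i = (Nat.chineseRemainder h (b : ZMod f).val
      ((η : ZMod p).val ^ p ^ n * (1 + p) ^ i) : ℕ) := by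
    unfold ix
    rw [dif_pos h]
  obtain ⟨h1, h2⟩ := (Nat.chineseRemainder h (b : ZMod f).val
      ((η : ZMod p).val ^ p ^ n * (1 + p) ^ i)).2
  have hlt := Nat.chineseRemainder_lt_mul h (b : ZMod f).val
      ((η : ZMod p).val ^ p ^ n * (1 + p) ^ i) (NeZero.ne f) hp
  rw [← hix] at h1 h2 hlt
  refine ⟨hlt, ?_, ?_⟩
  · rw [Int.cast_natCast, (ZMod.natCast_eq_natCast_iff _ _ _).2 h1, ZMod.natCast_zmod_val]
  · have := (Nat.modEq_iff_dvd.1 h2.symm)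
    push_cast at this
    unfold tei
    push_cast
    exact this

private theorem red_key {p f : ℕ} [Fact p.Prime] [NeZero f] (hGG : S_GG) (hpf : ¬ p ∣ f) {c : ℕ}
    (hc : 1 ≤ c) (n : ℕ) (w : ℤ) (i : ℕ) (hi : (p : ℤ) ^ (n + 1) ∣ (1 + p) ^ i - f * w)
    (b : (ZMod f)ˣ) (η : (ZMod p)ˣ) (u : (ZMod f)ˣ) (hu : (u : ZMod f) = ((p ^ (n + 1) : ℕ) : ZMod f)) :
    wt (f * p ^ (n + 1)) c (ix p f n b η i) =
      G c ((tei p n η : ℝ) * w / p ^ (n + 1) + ((b * u⁻¹ : (ZMod f)ˣ) : ZMod f).val / f) := by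
  obtain ⟨h1, -, -, -, h5⟩ := hGG c hc
  obtain ⟨ha, hb, hd⟩ := red_ix hpf n b η i
  rw [h5 _ _ ha]
  set a := ix p f n b η i with hadef
  have hf : (f : ℤ) ∣ (a : ℤ) - (tei p n η : ℤ) * w * f -
      (((b * u⁻¹ : (ZMod f)ˣ) : ZMod f).val : ℤ) * (p : ℤ) ^ (n + 1) := by
    rw [← ZMod.intCast_zmod_eq_zero_iff_dvd]
    push_cast
    have e1 : ((a : ℕ) : ZMod f) = (b : ZMod f) := by
      rw [← hb]; push_cast; rfl
    have e2 : (p : ZMod f) ^ (n + 1) = (u : ZMod f) := by rw [hu]; push_cast; rfl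
    have e3 : ((f : ℕ) : ZMod f) = 0 := ZMod.natCast_self f
    rw [e1, e2, e3, mul_zero, sub_zero, ZMod.natCast_zmod_val, mul_assoc, Units.inv_mul, mul_one,
      sub_self]
  have hq : (p : ℤ) ^ (n + 1) ∣ (a : ℤ) - (tei p n η : ℤ) * w * f -
      (((b * u⁻¹ : (ZMod f)ˣ) : ZMod f).val : ℤ) * (p : ℤ) ^ (n + 1) := by
    have e : (a : ℤ) - (tei p n η : ℤ) * w * f -
      (((b * u⁻¹ : (ZMod f)ˣ) : ZMod f).val : ℤ) * (p : ℤ) ^ (n + 1) =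
      ((a : ℤ) - (tei p n η : ℤ) * (1 + p) ^ i) + (tei p n η : ℤ) * ((1 + p) ^ i - f * w) -
      (((b * u⁻¹ : (ZMod f)ˣ) : ZMod f).val : ℤ) * (p : ℤ) ^ (n + 1) := by ring
    rw [e]
    exact dvd_sub (dvd_add hd (Dvd.dvd.mul_left hi _)) (Dvd.intro_left _ rfl)
  have hcop : IsCoprime (f : ℤ) ((p : ℤ) ^ (n + 1)) := by
    have := Nat.isCoprime_iff_coprime.2 (red_cop hpf n)
    push_cast at this
    exact this
  obtain ⟨m, hm⟩ := hcop.mul_dvd hf hq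
  have hf0 : (f : ℝ) ≠ 0 := Nat.cast_ne_zero.2 (NeZero.ne f)
  have hp0 : (p : ℝ) ^ (n + 1) ≠ 0 := pow_ne_zero _ (Nat.cast_ne_zero.2 (Nat.Prime.ne_zero Fact.out))
  rw [← h1 ((tei p n η : ℝ) * w / p ^ (n + 1) + ((b * u⁻¹ : (ZMod f)ˣ) : ZMod f).val / f) m]
  congr 1
  have hm' : (a : ℝ) - (tei p n η : ℝ) * w * f -
      (((b * u⁻¹ : (ZMod f)ˣ) : ZMod f).val : ℝ) * (p : ℝ) ^ (n + 1) =
      (f : ℝ) * (p : ℝ) ^ (n + 1) * m := by exact_mod_cast hm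
  generalize ((b * u⁻¹ : (ZMod f)ˣ) : ZMod f).val = t at hm' ⊢
  push_cast
  field_simp
  linarith

theorem tRed (hPow : S_Pow) (hGG : S_GG) : S_Red := by
  intro p f _ _ hp hpf c hc κ _ χ n w hw
  obtain ⟨i, hi⟩ := hPow p hp n (f * w) hw
  have hcop : (p ^ (n + 1)).Coprime f := (red_cop hpf n).symm
  set u : (ZMod f)ˣ := ZMod.unitOfCoprime (p ^ (n + 1)) hcop with hu
  have hu' : (u : ZMod f) = ((p ^ (n + 1) : ℕ) : ZMod f) := ZMod.coe_unitOfCoprime _ _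
  refine ⟨i, (chf χ u)⁻¹, ?_⟩
  unfold SS
  rw [Finset.sum_comm, Finset.mul_sum]
  refine Finset.sum_congr rfl fun η _ => ?_
  unfold hh
  rw [← Equiv.sum_comp (Equiv.mulRight u⁻¹) (fun b : (ZMod f)ˣ => (((chf χ b)⁻¹ : κˣ) : κ) *
    ((G c ((tei p n η : ℝ) * w / p ^ (n + 1) + (b : ZMod f).val / f) : ℤ) : κ)), Finset.mul_sum,
    Finset.mul_sum]
  refine Finset.sum_congr rfl fun b _ => ?_
  rw [red_key hGG hpf hc n w i hi b η u hu']
  have e : χ (b, η) = chf χ b * chp χ η := by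
    unfold chf chp
    rw [MonoidHom.comp_apply, MonoidHom.comp_apply, ← map_mul]
    congr 1
    ext <;> simp
  rw [e, Equiv.coe_mulRight, map_mul, map_inv]
  push_cast [mul_inv, inv_inv]
  have hne : ((chf χ u : κˣ) : κ) ≠ 0 := (chf χ u).ne_zero
  field_simp

end Pool.Agent.FW.C
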