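import Pool.Agent.Lib.FW.C.Kro
import Pool.Agent.Lib.FW.C.TeiB
import Pool.Agent.Lib.FW.C.Emb
import Pool.Agent.Lib.FW.C.Tei
import Pool.Agent.Lib.FW.C.Geo
import Pool.Agent.Lib.FW.C.Avg
import Pool.Agent.Lib.FW.C.HH
import Pool.Agent.Lib.FW.C.GG
import Pool.Agent.Lib.FW.C.Two
import Pool.Agent.Lib.FW.C.Main
import Pool.Agent.Lib.FW.C.Red
import Pool.Agent.Lib.FW.C.Pow

/-!
# FW, Part C, all parts together

`allNV : S_NV`: Sinnott's non-vanishing of the twisted Stickelberger sums modulo `p`.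
-/

namespace Pool.Agent.FW.C

theorem allNV : S_NV :=
  tNV (tMain (tKro tGeo tAvg) tTeiB (tEmb tTeiB tTei) (tHH tGG) (tTwo tTeiB (tHH tGG)))
    (tRed tPow tGG)

end Pool.Agent.FW.C
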